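import Pool.Agent.Helper2.FixRegular

/-!
# Equivariant K-theory is not the ring of invariant functions on the fixed point scheme

The group is `G = B_2`, which is principally paired through `φ = id`, and
`X = ℙ⁴ = ℙ(Sym⁴ ℂ²)`, on which the principal nilpotent `e` acts by a single Jordan block.  All
schemes are represented by their functors of points on `ℂ`-algebras, vector bundles by compatible
families of finitely generated projective modules.
-/

open Pool.Agent.Helper2.FixK

namespace Pool.Agent.Results.MP_182799_ag.Counterexample

/-- The natural homomorphism `K^0_G(X) ⊗ ℂ → ℂ[Fix_G(X)]^G`, `[E] ↦ ((g, x) ↦ tr(g | E_x))`, is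
compatible with the structure maps (it is not bijective, by the theorem below). -/
theorem exists_compatible_hom :
    ∃ κ : KZero P4 →ₐ[ℂ] invariantFunctions P4, Compatible κ :=
  ⟨kappa P4, fun _ _ E hE p => (congrArg (fun f : invariantFunctions P4 => f.1 p)
    (kappa_cls E)).trans (chi_pullback hE p)⟩

/-- For `B_2` acting on `ℙ⁴`:
* the element `e = lieB2 0 1` of the Lie algebra `{lieB2 x y}` of `B_2` is regular: its centraliser
  is the line given by `x = 0` (and `B_2` has rank one);
* `P4` is a functor of points with an action of `B_2`;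
* the vector field given by `e` has exactly one zero on `ℙ⁴`;
* no isomorphism of `ℂ`-algebras between `K^0_G(X) ⊗ ℂ` and `ℂ[Fix_G(X)]^G` is compatible with
  the structure maps from `K^0_G(pt) ⊗ ℂ ≅ ℂ[G]^G`, that is, sends the pullback of every
  representation `U` to the function `(g, x) ↦ tr(g | U)`. -/
theorem result :
    (∀ x y : ℂ, lieB2 x y * lieB2 0 1 = lieB2 0 1 * lieB2 x y ↔ x = 0) ∧
    P4.IsAction ∧ IsRegularAction P4 ∧
    ¬ ∃ ψ : KZero P4 ≃ₐ[ℂ] invariantFunctions P4, Compatible ψ :=
  ⟨regular_e, isAction_P4, regular_P4, no_compatible_iso⟩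

end Pool.Agent.Results.MP_182799_ag.Counterexample
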